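import Pool.Agent.Helper93.PL.St

/-!
# Module UN1 of project PL: the number of polynomials modulo `p` with `n` zeros

The evaluation map `(ZMod p)^(d+1) → (ZMod p → ZMod p)` is additive and onto (Lagrange interpolation), so all
fibres have the same number of elements; a map `ZMod p → ZMod p` is counted by its set of zeros.
-/

set_option autoImplicit false

namespace Pool.Agent.Helper18.PL

open Finset
open Pool.Agent.Helper61.PV
open Pool.Agent.Helper93.PL

/-- the evaluation map -/
def evm (p d : ℕ) : (Fin (d + 1) → ZMod p) →+ (ZMod p → ZMod p) where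
  toFun f x := ∑ i, f i * x ^ (i : ℕ)
  map_zero' := by ext x; simp
  map_add' f g := by ext x; simp [add_mul, Finset.sum_add_distrib]

theorem evm_surj (p d : ℕ) [Fact p.Prime] (hd : p ≤ d + 1) : Function.Surjective (evm p d) := by
  intro h
  classical
  have hinj : Set.InjOn (id : ZMod p → ZMod p) ((univ : Finset (ZMod p)) : Set (ZMod p)) := by
    intro a _ b _ hab; exact hab
  set P := Lagrange.interpolate (univ : Finset (ZMod p)) id h with hP
  have hdeg : P.degree < ((d + 1 : ℕ) : WithBot ℕ) := by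
    refine lt_of_lt_of_le (Lagrange.degree_interpolate_lt h hinj) ?_
    rw [Finset.card_univ, ZMod.card]
    exact_mod_cast hd
  have hnat : P.natDegree < d + 1 := by
    by_cases h0 : P = 0
    · rw [h0]; simp
    · exact (Polynomial.natDegree_lt_iff_degree_lt h0).2 hdeg
  refine ⟨fun i => P.coeff i, ?_⟩
  ext x
  have h1 : P.eval x = h x := Lagrange.eval_interpolate_at_node h hinj (mem_univ x)
  rw [← h1, Polynomial.eval_eq_sum_range' hnat x, Finset.sum_range]
  rfl

/-- sums over an additive surjection of finite groups -/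
theorem sum_fib {A B : Type*} [AddGroup A] [AddGroup B] [Fintype A] [Fintype B] [DecidableEq B] (φ : A →+ B)
    (hs : Function.Surjective φ) (H : B → ℝ) :
    (Fintype.card B : ℝ) * ∑ a, H (φ a) = Fintype.card A * ∑ b, H b := by
  have hc : ∀ b : B, (#{a | φ a = b} : ℕ) = #{a | φ a = 0} := fun b =>
    AddMonoidHom.card_fiber_eq_of_mem_range φ (hs b) (hs 0)
  have h1 : ∑ a, H (φ a) = (#{a | φ a = 0} : ℕ) * ∑ b, H b := by
    rw [← Finset.sum_fiberwise (univ : Finset A) φ (fun a => H (φ a)), Finset.mul_sum]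
    refine Finset.sum_congr rfl fun b _ => ?_
    rw [← hc b, Finset.sum_congr rfl (g := fun _ => H b), Finset.sum_const, nsmul_eq_mul]
    intro a ha
    rw [(mem_filter.1 ha).2]
  have h2 : (Fintype.card A : ℝ) = Fintype.card B * (#{a | φ a = 0} : ℕ) := by
    have h3 : Fintype.card A = ∑ b : B, #{a | φ a = b} := by
      rw [← Finset.card_univ, Finset.card_eq_sum_card_fiberwise (f := φ) (t := univ) (fun _ _ => mem_coe.2 (mem_univ _))]
    have h4 : ∑ b : B, #{a | φ a = b} = Fintype.card B * #{a | φ a = 0} := by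
      rw [Finset.sum_congr rfl (fun b _ => hc b), Finset.sum_const, Finset.card_univ, smul_eq_mul]
    rw [h3, h4]; push_cast; ring
  rw [h1, h2]; ring

/-- maps `ZMod p → ZMod p` counted by the number of zeros -/
theorem sum_maps (p : ℕ) [Fact p.Prime] (G : ℕ → ℝ) :
    ∑ h : ZMod p → ZMod p, G (#{x | h x = 0}) =
      ∑ n ∈ range (p + 1), (p.choose n : ℝ) * ((p : ℝ) - 1) ^ (p - n) * G n := by
  classical
  have hp1 : 1 ≤ p := (Fact.out : p.Prime).one_lt.le
  have h1 : ∑ h : ZMod p → ZMod p, G (#{x | h x = 0}) =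
      ∑ S ∈ (univ : Finset (ZMod p)).powerset, ((p : ℝ) - 1) ^ (p - #S) * G (#S) := by
    rw [← Finset.sum_fiberwise_of_maps_to (s := (univ : Finset (ZMod p → ZMod p)))
      (t := (univ : Finset (ZMod p)).powerset) (g := fun h => ({x | h x = 0} : Finset (ZMod p)))
      (fun h _ => mem_powerset.2 (subset_univ _))]
    refine Finset.sum_congr rfl fun S _ => ?_
    have h2 : ∀ h ∈ ({h | ({x | h x = 0} : Finset (ZMod p)) = S} : Finset (ZMod p → ZMod p)),
        G (#{x | h x = 0}) = G (#S) := by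
      intro h hh; rw [(mem_filter.1 hh).2]
    rw [Finset.sum_congr rfl h2, Finset.sum_const, nsmul_eq_mul]
    congr 1
    have h3 : ({h | ({x | h x = 0} : Finset (ZMod p)) = S} : Finset (ZMod p → ZMod p)) =
        Fintype.piFinset (fun x => if x ∈ S then ({0} : Finset (ZMod p)) else univ.erase 0) := by
      ext h
      rw [mem_filter, Fintype.mem_piFinset]
      constructor
      · rintro ⟨_, hS⟩ x
        by_cases hx : x ∈ S
        · rw [if_pos hx, mem_singleton]
          rw [← hS] at hx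
          exact (mem_filter.1 hx).2
        · rw [if_neg hx, mem_erase]
          refine ⟨fun h0 => hx ?_, mem_univ _⟩
          rw [← hS]
          exact mem_filter.2 ⟨mem_univ _, h0⟩
      · intro hx
        refine ⟨mem_univ _, ?_⟩
        ext x
        have := hx x
        rw [mem_filter]
        by_cases hxS : x ∈ S
        · rw [if_pos hxS, mem_singleton] at this
          exact ⟨fun _ => hxS, fun _ => ⟨mem_univ _, this⟩⟩
        · rw [if_neg hxS, mem_erase] at this
          exact ⟨fun h0 => absurd h0.2 this.1, fun h0 => absurd h0 hxS⟩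
    rw [h3, Fintype.card_piFinset]
    have h4 : ∀ x : ZMod p, #(if x ∈ S then ({0} : Finset (ZMod p)) else univ.erase 0) =
        if x ∈ S then 1 else (p - 1) := by
      intro x
      split_ifs
      · simp
      · rw [card_erase_of_mem (mem_univ _), Finset.card_univ, ZMod.card]
    rw [Finset.prod_congr rfl (fun x _ => h4 x), Finset.prod_ite]
    simp only [Finset.prod_const, one_pow, one_mul]
    have h5 : #((univ : Finset (ZMod p)).filter (fun x => ¬ x ∈ S)) = p - #S := by
      rw [Finset.filter_not, Finset.card_sdiff_of_subset (filter_subset _ _), Finset.card_univ, ZMod.card]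
      congr 2
      ext x; simp
    rw [h5]; push_cast [Nat.cast_sub hp1]; ring
  rw [h1, Finset.sum_powerset_apply_card (fun m => ((p : ℝ) - 1) ^ (p - m) * G m), Finset.card_univ, ZMod.card]
  refine Finset.sum_congr rfl fun n _ => ?_
  rw [nsmul_eq_mul]; ring

theorem Nz_eq (p d : ℕ) [Fact p.Prime] (F : Fin (d + 1) → ℤ) :
    Nz F p = #{x : ZMod p | evm p d (fun i => (F i : ZMod p)) x = 0} := by
  unfold Nz
  refine Finset.card_bij (fun r _ => (r : ZMod p)) ?_ ?_ ?_
  · intro r hr
    have h1 := (mem_filter.1 hr).2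
    rw [mem_filter]
    refine ⟨mem_univ _, ?_⟩
    have h2 : ((ev F r : ℤ) : ZMod p) = 0 := (ZMod.intCast_zmod_eq_zero_iff_dvd _ _).2 h1
    rw [← h2]
    unfold ev evm
    simp
  · intro a ha b hb hab
    have h1 := mem_range.1 (mem_filter.1 ha).1
    have h2 := mem_range.1 (mem_filter.1 hb).1
    have h3 := (ZMod.natCast_eq_natCast_iff' a b p).1 hab
    rwa [Nat.mod_eq_of_lt h1, Nat.mod_eq_of_lt h2] at h3
  · intro x hx
    have h1 := (mem_filter.1 hx).2
    refine ⟨x.val, ?_, ZMod.natCast_zmod_val x⟩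
    rw [mem_filter]
    refine ⟨mem_range.2 (ZMod.val_lt x), ?_⟩
    rw [← ZMod.intCast_zmod_eq_zero_iff_dvd, ← h1]
    unfold ev evm
    simp

theorem hUn1 : StUn1 := by
  intro p d hp hd G
  haveI : Fact p.Prime := ⟨hp⟩
  have hp0 : (p : ℝ) ≠ 0 := by exact_mod_cast hp.ne_zero
  have h1 : ∑ F ∈ Fintype.piFinset (fun _ : Fin (d + 1) => Ico (0 : ℤ) p), G (Nz F p) =
      ∑ f : Fin (d + 1) → ZMod p, G (#{x : ZMod p | evm p d f x = 0}) := by
    refine Finset.sum_bij' (fun F _ => fun i => (F i : ZMod p)) (fun f _ => fun i => ((f i).val : ℤ)) ?_ ?_ ?_ ?_ ?_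
    · intro F _; exact mem_univ _
    · intro f _
      rw [Fintype.mem_piFinset]
      intro i
      rw [mem_Ico]
      exact ⟨Int.natCast_nonneg _, by exact_mod_cast ZMod.val_lt (f i)⟩
    · intro F hF
      ext i
      have h2 := mem_Ico.1 (Fintype.mem_piFinset.1 hF i)
      have h3 : (((F i : ZMod p).val : ℕ) : ℤ) = F i % p := ZMod.val_intCast (F i)
      show (((F i : ZMod p).val : ℕ) : ℤ) = F i
      rw [h3]
      exact Int.emod_eq_of_lt h2.1 h2.2
    · intro f _
      ext i
      show ((((f i).val : ℕ) : ℤ) : ZMod p) = f i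
      rw [Int.cast_natCast]
      exact ZMod.natCast_zmod_val (f i)
    · intro F _
      rw [Nz_eq]
  have h2 := sum_fib (evm p d) (evm_surj p d hd) (fun h => G (#{x | h x = 0}))
  have h3 : (Fintype.card (ZMod p → ZMod p) : ℝ) = (p : ℝ) ^ p := by
    rw [Fintype.card_fun, ZMod.card]; push_cast; rfl
  have h4 : (Fintype.card (Fin (d + 1) → ZMod p) : ℝ) = (p : ℝ) ^ (d + 1) := by
    rw [Fintype.card_fun, ZMod.card, Fintype.card_fin]; push_cast; rfl
  rw [h3, h4, sum_maps] at h2
  rw [h1]
  have hpp : (p : ℝ) ^ p ≠ 0 := pow_ne_zero _ hp0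
  refine mul_left_cancel₀ hpp ?_
  rw [h2, mul_left_comm]
  congr 1
  rw [Finset.mul_sum]
  refine Finset.sum_congr rfl fun n hn => ?_
  have hnp : n ≤ p := Nat.lt_succ_iff.1 (mem_range.1 hn)
  unfold bw
  have h5 : (p : ℝ) ^ p = (p : ℝ) ^ n * (p : ℝ) ^ (p - n) := by rw [← pow_add]; congr 1; omega
  have h6 : (p : ℝ) ^ n * (1 / (p : ℝ)) ^ n = 1 := by rw [← mul_pow, mul_one_div_cancel hp0, one_pow]
  have h7 : (p : ℝ) ^ (p - n) * (1 - 1 / (p : ℝ)) ^ (p - n) = ((p : ℝ) - 1) ^ (p - n) := by
    rw [← mul_pow]; congr 1; field_simp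
  rw [h5]
  calc (p.choose n : ℝ) * ((p : ℝ) - 1) ^ (p - n) * G n
      = (p.choose n : ℝ) * ((p : ℝ) ^ n * (1 / (p : ℝ)) ^ n) * ((p : ℝ) ^ (p - n) * (1 - 1 / (p : ℝ)) ^ (p - n)) * G n := by
        rw [h6, h7]; ring
    _ = _ := by ring

end Pool.Agent.Helper18.PL
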